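import Pool.Agent.N19.BR.Cen
import Pool.Agent.N19.BR.AMain

/-!
# Central L-values of elliptic curves over number fields modulo rational numbers: an unconditional relation
between the value over `K` and the values over special number fields

`K` is a number field, `L` a finite Galois extension of `K` and `S` a finite set of primes of `K`.

The proof.  There is a relation `∑ e_j [F_j] = [K]`, with coefficient `1` on the right, between the
permutation characters of finite extensions `F_j` of `K` with the properties below
(`Pool.Agent.N19.BR.Rel`, ..., `Main`, `AMain`).  For an elliptic curve `E` over `K` it gives: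
* `L(E / K, s) = R(s) ∏ L(E / F_j, s) ^ e_j` with `R` from finitely many Euler factors, so `R(1)` is a nonzero
  rational number (`Lead`, `QuotL`);
* `∏ P_σ(K) = ∏_j (∏ P_σ(F_j)) ^ e_j` for the periods of one differential over `K` (`Per`: the permutation
  characters at the complex conjugations count the real and the complex embeddings);
* `|Δ_K| = ∏ |Δ_{F_j}| ^ e_j` for the discriminants (`Disc`: Hilbert's formula for the different);
so `Ω(E / K) = ∏ Ω(E / F_j) ^ e_j`, and the leading coefficients of the L-functions at `s = 1` divided by the
periods are related, without any assumption on the ranks or on regulators.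

The definitions are in `Pool.Agent.N19.BR.CDefs`, `QDefs`, `ADefs`, `TDefs` and `Defs`.
-/

set_option autoImplicit false

namespace Pool.Agent.Results.MP_90f827_nt.CentralValueRelation

open NumberField IsDedekindDomain
open Pool.Agent.N19.BR.TDef (FieldList)
open Pool.Agent.N19.BR.MDef (HyperelementaryList)
open Pool.Agent.N19.BR.QDef
open scoped Classical

/-- **Central values modulo rational numbers.**  Let `L/K` be a finite Galois extension of number fields, `S` a
finite set of primes of `K` and `k ≥ 1`.  There is a finite list of number fields `F_j ⊇ K` with integers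
`e_j`, such that for every `j` there is a prime number `p` for which the Galois group of `L F_j / F_j` is
`p`-hyperelementary, the divisors of `k` prime to `p` divide the local degrees of `F_j / K` at the primes above
`S`, and `F_j` has at most two real places if `p ≠ 2`, and such that the following holds for ALL elliptic curves
`E` over `K` and all connected `U` that contain `1` and the half-plane of absolute convergence, for example
`U = ℂ`: if for all `j` the function `L(E / F_j, s)` continues to `U` with order `r_j` and leading coefficient
`κ_j Ω(E / F_j)` at `s = 1`, then `L(E / K, s)` continues to `U` with order `r = ∑ e_j r_j` and leading coefficient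
`κ Ω(E / K)`, where `κ = q ∏ κ_j ^ e_j` for a nonzero rational number `q`.  So if `L(E / K, 1) ≠ 0`, then
`L(E / K, 1) / Ω(E / K)` is rational if and only if `∏ κ_j ^ e_j` is, in particular if the values over the `F_j` are
not zero and the conjecture is true over the `F_j`. -/
theorem result (K : Type) [Field K] [NumberField K] (L : Type) [Field L] [NumberField L]
    [Algebra K L] [IsGalois K L] (S : Set (HeightOneSpectrum (𝓞 K))) (hS : S.Finite) (k : ℕ)
    (hk : k ≠ 0) :
    ∃ Y : FieldList K, HyperelementaryList L S k Y ∧
      ∀ E : WeierstrassCurve K, E.IsElliptic →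
      ∀ U : Set ℂ, IsPreconnected U → (∀ s : ℂ, 3 / 2 < s.re → s ∈ U) → (1 : ℂ) ∈ U →
      ∀ (r : Fin Y.r → ℤ) (κ : Fin Y.r → ℂ), (∀ j, CentralFormula E U (Y.F j) (r j) (κ j)) →
        ∃ q : ℚ, q ≠ 0 ∧ CentralFormula E U K (∑ j, Y.e j * r j) (q * ∏ j, κ j ^ Y.e j) := by
  obtain ⟨Y, hY, hrel⟩ := Pool.Agent.N19.BR.hyper_list K L S hS k hk
  refine ⟨Y, hY, fun E hE U hU hH h1 r κ hκ => ?_⟩
  exact Pool.Agent.N19.BR.central_rel (Z := fun j => (⟨Y.F j⟩ : Pool.Agent.R433.MD.Ext K)) (e := Y.e)
    (r := r) (κ := κ) hE hU hH h1 hrel hκ

end Pool.Agent.Results.MP_90f827_nt.CentralValueRelation
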